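import Pool.Agent.H620R2.OmEx

set_option autoImplicit false

/-!
# MP_f476d2_lc, question Q1, positive answer

If `U` is a prefix-free machine that is universal by adjunction and `X` is a co-c.e. set of strings
with `Ω_U[X] > 0`, then `Ω_U[X]` is Martin-Löf random.
-/

namespace Pool.Agent.Results.MP_f476d2_lc.CoceOmegaRandom

open MeasureTheory
open scoped ENNReal

/-- `M` is a prefix-free machine: a partial computable function from binary strings to binary
strings whose domain is prefix-free. -/
def PrefixFreeMachine (M : List Bool →. List Bool) : Prop :=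
  Partrec M ∧ ∀ p q : List Bool, (M p).Dom → (M q).Dom → p <+: q → p = q

/-- `U` is a prefix-free machine that is universal by adjunction: there are a uniformly partial
computable enumeration `M 0, M 1, ...` of all prefix-free machines and a computable prefix-free
family of codes `c 0, c 1, ...` such that `U (c e ++ p) = M e p` for all `e` and `p`. -/
def UniversalByAdjunction (U : List Bool →. List Bool) : Prop :=
  PrefixFreeMachine U ∧
    ∃ (M : ℕ → List Bool →. List Bool) (c : ℕ → List Bool),
      Partrec₂ M ∧ (∀ e, PrefixFreeMachine (M e)) ∧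
      (∀ N : List Bool →. List Bool, PrefixFreeMachine N → ∃ e, M e = N) ∧
      Computable c ∧ (∀ d e : ℕ, c d <+: c e → d = e) ∧
      ∀ (e : ℕ) (p : List Bool), U (c e ++ p) = M e p

/-- `Ω_U[X]`: the sum of `2 ^ (-|p|)` over all `p` in the domain of `U` with `U(p)` in `X`. -/
noncomputable def OmegaOn (U : List Bool →. List Bool) (X : Set (List Bool)) : ℝ :=
  ∑' p : {p : List Bool // ∃ z ∈ X, z ∈ U p}, (1 / 2 : ℝ) ^ p.1.length

/-- the set of infinite binary sequences that extend the string `w` -/
def Cylinder (w : List Bool) : Set (ℕ → Bool) := {Z | ∀ (i : ℕ) (h : i < w.length), Z i = w[i]}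

/-- the uniform (fair coin) measure on infinite binary sequences -/
noncomputable def coin : Measure (ℕ → Bool) :=
  Measure.infinitePi (fun _ : ℕ => (PMF.uniformOfFintype Bool).toMeasure)

/-- `Z` is Martin-Löf random: for every c.e. set `W` of pairs `(n, w)` such that the open set
generated by the strings `w` with `(n, w)` in `W` has measure at most `2 ^ (-n)` for every `n`, the
sequence `Z` lies outside one of these open sets. -/
def RandomSeq (Z : ℕ → Bool) : Prop :=
  ∀ W : Set (ℕ × List Bool), (REPred fun x => x ∈ W) →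
    (∀ n, coin (⋃ w ∈ {w : List Bool | (n, w) ∈ W}, Cylinder w) ≤ (1 / 2) ^ n) →
      ∃ n, ∀ w : List Bool, (n, w) ∈ W → Z ∉ Cylinder w

/-- The real `r` in `[0, 1]` is Martin-Löf random: it has a Martin-Löf random binary expansion. -/
def RandomReal (r : ℝ) : Prop :=
  ∃ Z : ℕ → Bool, RandomSeq Z ∧ r = ∑' n, if Z n then (1 / 2 : ℝ) ^ (n + 1) else 0

/-- Machines that are universal by adjunction exist. -/
theorem exists_universalByAdjunction : ∃ U, UniversalByAdjunction U :=
  Pool.Agent.H620R2.Om.exists_adj

/-- Positive answer to Q1. -/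
theorem result (U : List Bool →. List Bool) (X : Set (List Bool)) (hU : UniversalByAdjunction U)
    (hX : REPred fun z => z ∉ X) (hpos : 0 < OmegaOn U X) : RandomReal (OmegaOn U X) := by
  obtain ⟨hM, M, c, -, -, hN, -, -, hc⟩ := hU
  have hM' : Pool.Agent.Helper227.IsMachine U := hM
  obtain ⟨Z, hZ⟩ := Pool.Agent.H620R2.Om.exists_expansion hpos.le
    (Pool.Agent.H620R2.Om.Omega_le_one hM' X)
  refine ⟨Z, ?_, hZ⟩
  have h := Pool.Agent.H620R2.Om.main hM' (fun N hN' => ?_) hX hpos hZ
  · exact h
  · obtain ⟨e, rfl⟩ := hN N hN'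
    exact ⟨c e, fun p => hc e p⟩

end Pool.Agent.Results.MP_f476d2_lc.CoceOmegaRandom
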